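import Mathlib

open Finset Polynomial

namespace Pool.Agent.Helper901PM

variable {p : ℕ} [Fact p.Prime]

lemma sum_pow_card_sub_one : ∑ w : ZMod p, w ^ (p - 1) = -1 := by
  classical
  have hp : 1 < p := (Fact.out : p.Prime).one_lt
  have h1 : ∀ w : ZMod p, w ^ (p - 1) = 1 - (if w = 0 then 1 else 0) := by
    intro w
    by_cases hw : w = 0
    · subst hw
      rw [zero_pow (by omega)]
      simp
    · rw [ZMod.pow_card_sub_one_eq_one hw]
      simp [hw]
  simp_rw [h1]
  rw [Finset.sum_sub_distrib]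
  simp

lemma sum_eval (Q : (ZMod p)[X]) (hQ : Q.natDegree < p) :
    ∑ w : ZMod p, Q.eval w = - Q.coeff (p - 1) := by
  classical
  have hp : 1 < p := (Fact.out : p.Prime).one_lt
  simp_rw [eval_eq_sum_range' hQ]
  rw [Finset.sum_comm]
  simp_rw [← Finset.mul_sum]
  obtain ⟨q, rfl⟩ : ∃ q, p = q + 1 := ⟨p - 1, by omega⟩
  rw [Finset.sum_range_succ]
  have h0 : ∑ i ∈ range q, Q.coeff i * ∑ w : ZMod (q+1), w ^ i = 0 := by
    apply Finset.sum_eq_zero
    intro i hi
    rw [Finset.mem_range] at hi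
    have := FiniteField.sum_pow_lt_card_sub_one (K := ZMod (q+1)) i (by
      rw [ZMod.card]; omega)
    rw [this, mul_zero]
  rw [h0]
  have h1 := sum_pow_card_sub_one (p := q + 1)
  simp only [Nat.add_sub_cancel] at h1 ⊢
  rw [h1]
  ring

/-- the sign attached to a Boolean -/
def sg (s : Bool) : ZMod p := if s then -1 else 1

@[simp] lemma sg_false : (sg false : ZMod p) = 1 := rfl
@[simp] lemma sg_true : (sg true : ZMod p) = -1 := rfl

noncomputable def E (γ : ZMod p) (a b : ℕ) : ZMod p :=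
  ∑ y : ZMod p × Bool, sg y.2 * ((y.1 - sg y.2 * γ) ^ a * (y.1 + sg y.2 * γ) ^ b)

noncomputable def Qp (γ : ZMod p) (a b : ℕ) : (ZMod p)[X] :=
  (X + C (-γ)) ^ a * (X + C γ) ^ b

lemma Qp_monic (γ : ZMod p) (a b : ℕ) : (Qp γ a b).Monic :=
  ((monic_X_add_C _).pow a).mul ((monic_X_add_C _).pow b)

lemma Qp_natDegree (γ : ZMod p) (a b : ℕ) : (Qp γ a b).natDegree = a + b := by
  unfold Qp
  rw [Monic.natDegree_mul ((monic_X_add_C _).pow a) ((monic_X_add_C _).pow b),
    (monic_X_add_C _).natDegree_pow, (monic_X_add_C _).natDegree_pow,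
    natDegree_X_add_C, natDegree_X_add_C, mul_one, mul_one]

lemma Qp_nextCoeff (γ : ZMod p) (a b : ℕ) : (Qp γ a b).nextCoeff = (b - a) * γ := by
  unfold Qp
  rw [Monic.nextCoeff_mul ((monic_X_add_C _).pow a) ((monic_X_add_C _).pow b),
    (monic_X_add_C _).nextCoeff_pow, (monic_X_add_C _).nextCoeff_pow,
    nextCoeff_X_add_C, nextCoeff_X_add_C, nsmul_eq_mul, nsmul_eq_mul]
  ring

lemma E_eq (γ : ZMod p) (a b : ℕ) :
    E γ a b = ∑ w : ZMod p, (Qp γ a b - Qp (-γ) a b).eval w := by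
  unfold E Qp
  rw [Fintype.sum_prod_type]
  apply Finset.sum_congr rfl
  intro w _
  simp
  ring

lemma E_lt (γ : ZMod p) {a b : ℕ} (h : a + b < p) : E γ a b = 0 := by
  have hp : 1 < p := (Fact.out : p.Prime).one_lt
  rw [E_eq, sum_eval, coeff_sub]
  · rcases Nat.lt_or_ge (a + b) (p - 1) with h1 | h1
    · rw [coeff_eq_zero_of_natDegree_lt (by rw [Qp_natDegree]; exact h1),
        coeff_eq_zero_of_natDegree_lt (by rw [Qp_natDegree]; exact h1)]
      simp
    · have h2 : a + b = p - 1 := by omega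
      have e1 := (Qp_monic γ a b).coeff_natDegree
      have e2 := (Qp_monic (-γ) a b).coeff_natDegree
      rw [Qp_natDegree, h2] at e1 e2
      rw [e1, e2]
      simp
  · refine lt_of_le_of_lt (natDegree_sub_le _ _) ?_
    rw [Qp_natDegree, Qp_natDegree]
    simpa using h

lemma E_of_eq (γ : ZMod p) {a b : ℕ} (h : a + b = p) : E γ a b = 4 * a * γ := by
  have hp : 1 < p := (Fact.out : p.Prime).one_lt
  have hb : (b : ZMod p) = - a := by
    have : ((a + b : ℕ) : ZMod p) = 0 := by rw [h]; simp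
    push_cast at this
    linear_combination this
  rw [E_eq, sum_eval, coeff_sub]
  · have e1 := nextCoeff_of_natDegree_pos (p := Qp γ a b) (by rw [Qp_natDegree]; omega)
    have e2 := nextCoeff_of_natDegree_pos (p := Qp (-γ) a b) (by rw [Qp_natDegree]; omega)
    rw [Qp_natDegree, h] at e1 e2
    rw [← e1, ← e2, Qp_nextCoeff, Qp_nextCoeff, hb]
    ring
  · have hd : (Qp γ a b - Qp (-γ) a b).degree < (Qp γ a b).degree := by
      apply degree_sub_lt_left
      · rw [degree_eq_natDegree (Qp_monic _ _ _).ne_zero,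
          degree_eq_natDegree (Qp_monic _ _ _).ne_zero, Qp_natDegree, Qp_natDegree]
      · exact (Qp_monic _ _ _).ne_zero
      · rw [(Qp_monic _ _ _).leadingCoeff, (Qp_monic _ _ _).leadingCoeff]
    by_cases h0 : Qp γ a b - Qp (-γ) a b = 0
    · rw [h0]; simp; omega
    · rw [natDegree_lt_iff_degree_lt h0]
      rw [degree_eq_natDegree (Qp_monic γ a b).ne_zero, Qp_natDegree, h] at hd
      exact hd

end Pool.Agent.Helper901PM
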