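import Mathlib
import Pool.Agent.Helper901PM.A

open Finset Equiv

namespace Pool.Agent.Helper901PM

variable {p : ℕ} [Fact p.Prime]

abbrev Pos (X J : Type) := Option X ⊕ (J × Bool)
abbrev Edg (X J : Type) := X ⊕ (J ⊕ J)

variable {X J : Type} [Fintype X] [DecidableEq X] [Fintype J] [DecidableEq J]

def W0 (γ : Edg X J → ZMod p) (cf : Edg X J → ZMod p × Bool) : Pos X J → ZMod p
  | .inl none => 0
  | .inl (some i) => (cf (.inl i)).1 - sg (cf (.inl i)).2 * γ (.inl i)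
  | .inr (j, false) => (cf (.inr (.inl j))).1 - sg (cf (.inr (.inl j))).2 * γ (.inr (.inl j))
  | .inr (j, true) => (cf (.inr (.inl j))).1 + sg (cf (.inr (.inl j))).2 * γ (.inr (.inl j))

def W1 (δ : ZMod p) (γ : Edg X J → ZMod p) (cf : Edg X J → ZMod p × Bool) : Pos X J → ZMod p
  | .inl none => δ
  | .inl (some i) => (cf (.inl i)).1 + sg (cf (.inl i)).2 * γ (.inl i)
  | .inr (j, false) => (cf (.inr (.inr j))).1 - sg (cf (.inr (.inr j))).2 * γ (.inr (.inr j))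
  | .inr (j, true) => (cf (.inr (.inr j))).1 + sg (cf (.inr (.inr j))).2 * γ (.inr (.inr j))

def MM (ι : Pos X J ≃ ZMod p) (W : Pos X J → ZMod p) : Matrix (Pos X J) (Pos X J) (ZMod p) :=
  Matrix.of fun i k => W k ^ (ι i).val

lemma det_MM (ι : Pos X J ≃ ZMod p) (W : Pos X J → ZMod p) :
    (MM ι W).det = ∑ σ : Perm (Pos X J), ((Perm.sign σ : ℤ) : ZMod p) *
      ∏ i, W i ^ (ι (σ i)).val := by
  rw [Matrix.det_apply']
  rfl

lemma inj_of_det (ι : Pos X J ≃ ZMod p) (W : Pos X J → ZMod p) (h : (MM ι W).det ≠ 0) :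
    Function.Injective W := by
  intro a b hab
  by_contra hne
  apply h
  apply Matrix.det_zero_of_column_eq hne
  intro k
  simp [MM, hab]

def eA (ι : Pos X J ≃ ZMod p) (σ τ : Perm (Pos X J)) : Edg X J → ZMod p
  | .inl i => ι (σ (.inl (some i)))
  | .inr (.inl j) => ι (σ (.inr (j, false)))
  | .inr (.inr j) => ι (τ (.inr (j, false)))

def eB (ι : Pos X J ≃ ZMod p) (σ τ : Perm (Pos X J)) : Edg X J → ZMod p
  | .inl i => ι (τ (.inl (some i)))
  | .inr (.inl j) => ι (σ (.inr (j, true)))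
  | .inr (.inr j) => ι (τ (.inr (j, true)))

omit [DecidableEq X] [DecidableEq J] in
lemma prod_split {M : Type*} [CommMonoid M] (f g : Pos X J → M) (F : Edg X J → M)
    (h1 : ∀ i, F (.inl i) = f (.inl (some i)) * g (.inl (some i)))
    (h2 : ∀ j, F (.inr (.inl j)) = f (.inr (j, false)) * f (.inr (j, true)))
    (h3 : ∀ j, F (.inr (.inr j)) = g (.inr (j, false)) * g (.inr (j, true))) :
    (∏ q, f q) * (∏ q, g q) = f (.inl none) * g (.inl none) * ∏ k, F k := by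
  simp only [Fintype.prod_sum_type, Fintype.prod_option, Fintype.prod_prod_type, Fintype.prod_bool,
    h1, h2, h3, Finset.prod_mul_distrib]
  simp only [mul_assoc, mul_comm, mul_left_comm]

omit [DecidableEq X] [DecidableEq J] in
lemma sum_split (f g : Pos X J → ℕ) (F : Edg X J → ℕ)
    (h1 : ∀ i, F (.inl i) = f (.inl (some i)) + g (.inl (some i)))
    (h2 : ∀ j, F (.inr (.inl j)) = f (.inr (j, false)) + f (.inr (j, true)))
    (h3 : ∀ j, F (.inr (.inr j)) = g (.inr (j, false)) + g (.inr (j, true))) :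
    (∑ q, f q) + (∑ q, g q) = f (.inl none) + g (.inl none) + ∑ k, F k := by
  simp only [Fintype.sum_sum_type, Fintype.sum_option, Fintype.sum_prod_type, Fintype.sum_bool,
    h1, h2, h3, Finset.sum_add_distrib]
  omega

noncomputable def SS (ι : Pos X J ≃ ZMod p) (δ : ZMod p) (γ : Edg X J → ZMod p) : ZMod p :=
  ∑ cf : Edg X J → ZMod p × Bool,
    (∏ k, sg (cf k).2) * ((MM ι (W0 γ cf)).det * (MM ι (W1 δ γ cf)).det)

omit [DecidableEq X] [DecidableEq J] in
lemma term_eq (ι : Pos X J ≃ ZMod p) (δ : ZMod p) (γ : Edg X J → ZMod p)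
    (cf : Edg X J → ZMod p × Bool) (σ τ : Perm (Pos X J)) :
    (∏ k, sg (cf k).2) * ((∏ i, W0 γ cf i ^ (ι (σ i)).val) * (∏ i, W1 δ γ cf i ^ (ι (τ i)).val)) =
      0 ^ (ι (σ (.inl none))).val * δ ^ (ι (τ (.inl none))).val *
        ∏ k, (sg (cf k).2 * (((cf k).1 - sg (cf k).2 * γ k) ^ (eA ι σ τ k).val *
          ((cf k).1 + sg (cf k).2 * γ k) ^ (eB ι σ τ k).val)) := by
  rw [prod_split _ _ (fun k => ((cf k).1 - sg (cf k).2 * γ k) ^ (eA ι σ τ k).val *
          ((cf k).1 + sg (cf k).2 * γ k) ^ (eB ι σ τ k).val)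
    (fun i => by simp [W0, W1, eA, eB]) (fun i => by simp [W0, eA, eB])
    (fun i => by simp [W1, eA, eB])]
  rw [Finset.prod_mul_distrib (f := fun k => (sg (cf k).2 : ZMod p))
    (g := fun k => ((cf k).1 - sg (cf k).2 * γ k) ^ (eA ι σ τ k).val *
          ((cf k).1 + sg (cf k).2 * γ k) ^ (eB ι σ τ k).val)]
  generalize (∏ k, (((cf k).1 - sg (cf k).2 * γ k) ^ (eA ι σ τ k).val *
          ((cf k).1 + sg (cf k).2 * γ k) ^ (eB ι σ τ k).val)) = T
  simp only [W0, W1]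
  ring

lemma SS_eq (ι : Pos X J ≃ ZMod p) (δ : ZMod p) (γ : Edg X J → ZMod p) :
    SS ι δ γ = ∑ σ : Perm (Pos X J), ∑ τ : Perm (Pos X J),
      ((Perm.sign σ : ℤ) : ZMod p) * ((Perm.sign τ : ℤ) : ZMod p) *
      (0 ^ (ι (σ (.inl none))).val * δ ^ (ι (τ (.inl none))).val *
        ∏ k, E (γ k) (eA ι σ τ k).val (eB ι σ τ k).val) := by
  unfold SS
  simp_rw [det_MM, Finset.sum_mul_sum, Finset.mul_sum]
  rw [Finset.sum_comm]
  apply Finset.sum_congr rfl
  intro σ _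
  rw [Finset.sum_comm]
  apply Finset.sum_congr rfl
  intro τ _
  have h1 : ∀ cf : Edg X J → ZMod p × Bool,
      (∏ k, sg (cf k).2) * (((Perm.sign σ : ℤ) : ZMod p) * (∏ i, W0 γ cf i ^ (ι (σ i)).val) *
        (((Perm.sign τ : ℤ) : ZMod p) * (∏ i, W1 δ γ cf i ^ (ι (τ i)).val))) =
      ((Perm.sign σ : ℤ) : ZMod p) * ((Perm.sign τ : ℤ) : ZMod p) *
      (0 ^ (ι (σ (.inl none))).val * δ ^ (ι (τ (.inl none))).val *
        ∏ k, (sg (cf k).2 * (((cf k).1 - sg (cf k).2 * γ k) ^ (eA ι σ τ k).val *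
          ((cf k).1 + sg (cf k).2 * γ k) ^ (eB ι σ τ k).val))) := by
    intro cf
    rw [← term_eq]
    ring
  simp_rw [h1]
  rw [← Finset.mul_sum, ← Finset.mul_sum]
  congr 2
  have h2 := Finset.prod_univ_sum (R := ZMod p) (fun _ : Edg X J => (Finset.univ : Finset (ZMod p × Bool)))
    (fun k y => sg y.2 * ((y.1 - sg y.2 * γ k) ^ (eA ι σ τ k).val *
          (y.1 + sg y.2 * γ k) ^ (eB ι σ τ k).val))
  rw [Fintype.piFinset_univ] at h2
  unfold E
  rw [h2]

end Pool.Agent.Helper901PM
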