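import Mathlib
import Pool.Agent.Helper901PM.B

open Finset Equiv

namespace Pool.Agent.Helper901PM

variable {p : ℕ} [Fact p.Prime]
variable {X J : Type} [Fintype X] [DecidableEq X] [Fintype J] [DecidableEq J]

def Valid (ι : Pos X J ≃ ZMod p) (σ τ : Perm (Pos X J)) : Prop :=
  ι (σ (.inl none)) = 0 ∧ ι (τ (.inl none)) = 0 ∧ ∀ k, eB ι σ τ k = - eA ι σ τ k

lemma sum_val : ∑ x : ZMod p, x.val + ∑ x : ZMod p, x.val = p * (p - 1) := by
  obtain ⟨q, rfl⟩ : ∃ q, p = q + 1 := ⟨p - 1, by have := (Fact.out : p.Prime).one_lt; omega⟩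
  have h1 : ∑ x : ZMod (q + 1), x.val = ∑ i ∈ range (q + 1), i := by
    have := Fin.sum_univ_eq_sum_range (fun i => i) (q + 1)
    rw [← this]
    rfl
  rw [h1, ← mul_two, Finset.sum_range_id_mul_two]

omit [Fintype X] [DecidableEq X] [Fintype J] [DecidableEq J] in
lemma eA_ne_zero (ι : Pos X J ≃ ZMod p) {σ τ : Perm (Pos X J)}
    (h1 : ι (σ (.inl none)) = 0) (h2 : ι (τ (.inl none)) = 0) (k : Edg X J) :
    eA ι σ τ k ≠ 0 := by
  intro h
  rcases k with i | j | j
  · simp only [eA] at h
    rw [← h1] at h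
    have := σ.injective (ι.injective h)
    simp at this
  · simp only [eA] at h
    rw [← h1] at h
    have := σ.injective (ι.injective h)
    simp at this
  · simp only [eA] at h
    rw [← h2] at h
    have := τ.injective (ι.injective h)
    simp at this

omit [DecidableEq X] [DecidableEq J] in
lemma term_valid (ι : Pos X J ≃ ZMod p) (δ : ZMod p) (γ : Edg X J → ZMod p)
    {σ τ : Perm (Pos X J)} (hv : Valid ι σ τ) :
    0 ^ (ι (σ (.inl none))).val * δ ^ (ι (τ (.inl none))).val *
        ∏ k, E (γ k) (eA ι σ τ k).val (eB ι σ τ k).val =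
      (∏ k, 4 * γ k) * ∏ k, eA ι σ τ k := by
  obtain ⟨h1, h2, h3⟩ := hv
  rw [h1, h2, ZMod.val_zero, pow_zero, pow_zero, one_mul, one_mul, ← Finset.prod_mul_distrib]
  apply Finset.prod_congr rfl
  intro k _
  have hne := eA_ne_zero ι h1 h2 k
  have hs : (eA ι σ τ k).val + (eB ι σ τ k).val = p := by
    rw [h3 k, ZMod.neg_val, if_neg hne]
    have := ZMod.val_lt (eA ι σ τ k)
    omega
  rw [E_of_eq _ hs, ZMod.natCast_zmod_val]
  ring

omit [DecidableEq X] [DecidableEq J] in
lemma valid_of_ne (hc : Fintype.card X + 1 + 2 * Fintype.card J = p)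
    (ι : Pos X J ≃ ZMod p) (δ : ZMod p) (γ : Edg X J → ZMod p)
    {σ τ : Perm (Pos X J)}
    (h : 0 ^ (ι (σ (.inl none))).val * δ ^ (ι (τ (.inl none))).val *
        ∏ k, E (γ k) (eA ι σ τ k).val (eB ι σ τ k).val ≠ 0) : Valid ι σ τ := by
  have hp : 1 < p := (Fact.out : p.Prime).one_lt
  have h1 : (ι (σ (.inl none))).val = 0 := by
    by_contra h0
    apply h
    rw [zero_pow h0]
    simp
  have h2 : ∀ k, p ≤ (eA ι σ τ k).val + (eB ι σ τ k).val := by
    intro k
    by_contra h0
    apply h
    rw [Finset.prod_eq_zero (Finset.mem_univ k) (E_lt _ (by omega)), mul_zero]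
  have h3 := sum_split (fun q => (ι (σ q)).val) (fun q => (ι (τ q)).val)
    (fun k => (eA ι σ τ k).val + (eB ι σ τ k).val)
    (fun i => rfl) (fun i => rfl) (fun i => rfl)
  have h4 : ∑ q, (ι (σ q)).val = ∑ x : ZMod p, x.val :=
    Equiv.sum_comp (σ.trans ι) (fun x => x.val)
  have h5 : ∑ q, (ι (τ q)).val = ∑ x : ZMod p, x.val :=
    Equiv.sum_comp (τ.trans ι) (fun x => x.val)
  rw [h4, h5, sum_val, h1] at h3
  have h6 : ∑ _k : Edg X J, p = p * (p - 1) := by
    rw [Finset.sum_const, Finset.card_univ, smul_eq_mul]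
    simp only [Fintype.card_sum]
    rw [mul_comm]
    congr 1
    omega
  have h7 : ∑ _k : Edg X J, p ≤ ∑ k, ((eA ι σ τ k).val + (eB ι σ τ k).val) :=
    Finset.sum_le_sum (fun k _ => h2 k)
  have h8 : ∑ _k : Edg X J, p = ∑ k, ((eA ι σ τ k).val + (eB ι σ τ k).val) := by omega
  have h9 := (Finset.sum_eq_sum_iff_of_le (fun k _ => h2 k)).mp h8
  refine ⟨(ZMod.val_eq_zero _).mp h1, (ZMod.val_eq_zero _).mp (by omega), ?_⟩
  intro k
  have h10 := h9 k (Finset.mem_univ k)
  have h11 : (((eA ι σ τ k).val + (eB ι σ τ k).val : ℕ) : ZMod p) = 0 := by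
    rw [← h10]; simp
  push_cast at h11
  rw [ZMod.natCast_zmod_val, ZMod.natCast_zmod_val] at h11
  linear_combination h11

/-! ### sign of a permutation commuting with the flip -/

lemma flip_bij (β : Perm (J × Bool))
    (h : ∀ j t, β (j, !t) = ((β (j, t)).1, !(β (j, t)).2)) :
    Function.Injective (fun j => (β (j, false)).1) := by
  intro j j' hj
  simp only [] at hj
  by_cases h2 : (β (j, false)).2 = (β (j', false)).2
  · have : β (j, false) = β (j', false) := Prod.ext hj h2
    have := β.injective this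
    simpa using this
  · have h3 : β (j', !false) = β (j, false) := by
      rw [h]
      refine Prod.ext hj.symm ?_
      change (!(β (j', false)).2) = (β (j, false)).2
      revert h2
      generalize (β (j, false)).2 = x
      generalize (β (j', false)).2 = y
      revert x y
      decide
    have := β.injective h3
    simp at this

lemma sign_flip (β : Perm (J × Bool))
    (h : ∀ j t, β (j, !t) = ((β (j, t)).1, !(β (j, t)).2)) :
    Perm.sign β = ∏ j, (if (β (j, false)).2 then (-1 : ℤˣ) else 1) := by
  let π : Perm J := Equiv.ofBijective _ (Finite.injective_iff_bijective.mp (flip_bij β h))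
  have hπ : ∀ j, π j = (β (j, false)).1 := fun j => rfl
  have hβ : β = (prodCongrLeft (fun _ : Bool => π)) *
      (prodCongrRight (fun j => if (β (j, false)).2 then swap false true else 1)) := by
    ext1 ⟨j, t⟩
    rw [Perm.mul_apply]
    cases t
    · by_cases h2 : (β (j, false)).2 = true
      · simp only [prodCongrRight_apply, h2, if_true, swap_apply_left, prodCongrLeft_apply, hπ]
        exact Prod.ext rfl h2
      · have h3 : (β (j, false)).2 = false := by simpa using h2
        simp only [prodCongrRight_apply, h3, Bool.false_eq_true, if_false, Perm.one_apply, prodCongrLeft_apply, hπ]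
        exact Prod.ext rfl h3
    · have h4 := h j false
      rw [Bool.not_false] at h4
      rw [h4]
      by_cases h2 : (β (j, false)).2 = true
      · simp only [prodCongrRight_apply, h2, if_true, swap_apply_right, prodCongrLeft_apply, hπ]
        rfl
      · have h3 : (β (j, false)).2 = false := by simpa using h2
        simp only [prodCongrRight_apply, h3, Bool.false_eq_true, if_false, Perm.one_apply, prodCongrLeft_apply, hπ]
        rfl
  have h5 : Perm.sign β = Perm.sign ((prodCongrLeft (fun _ : Bool => π)) *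
      (prodCongrRight (fun j => if (β (j, false)).2 then swap false true else 1))) :=
    congrArg _ hβ
  rw [h5, Perm.sign_mul, Perm.sign_prodCongrLeft, Perm.sign_prodCongrRight]
  simp only [Fintype.prod_bool, Int.units_mul_self, one_mul]
  apply Finset.prod_congr rfl
  intro j _
  split_ifs
  · rw [Perm.sign_swap (by simp)]
  · simp

end Pool.Agent.Helper901PM
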