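import Mathlib
import Pool.Agent.Helper901PM.C

open Finset Equiv

namespace Pool.Agent.Helper901PM

variable {p : ℕ} [Fact p.Prime]
variable {X J : Type} [Fintype X] [DecidableEq X] [Fintype J] [DecidableEq J]

/-- negation transported to positions -/
def nu (ι : Pos X J ≃ ZMod p) : Perm (Pos X J) := ι.trans ((Equiv.neg _).trans ι.symm)

omit [Fintype X] [DecidableEq X] [Fintype J] [DecidableEq J] in
lemma nu_apply (ι : Pos X J ≃ ZMod p) (q : Pos X J) : ι (nu ι q) = - ι q := by
  simp [nu]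

/-- flip of positions -/
def fl : Pos X J → Pos X J
  | .inl o => .inl o
  | .inr (j, t) => .inr (j, !t)

/-- permutations fixing the cross positions and commuting with the flip -/
def isC (θ : Perm (Pos X J)) : Prop :=
  (∀ o, θ (.inl o) = .inl o) ∧ ∀ q, θ (fl q) = fl (θ q)

omit [Fintype X] [DecidableEq X] [Fintype J] [DecidableEq J] in
lemma valid_flip {ι : Pos X J ≃ ZMod p} {σ τ : Perm (Pos X J)} (hv : Valid ι σ τ) (j : J) (t : Bool) :
    ι (σ (.inr (j, !t))) = - ι (σ (.inr (j, t))) ∧ ι (τ (.inr (j, !t))) = - ι (τ (.inr (j, t))) := by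
  have h1 := hv.2.2 (.inr (.inl j))
  have h2 := hv.2.2 (.inr (.inr j))
  simp only [eA, eB] at h1 h2
  cases t
  · exact ⟨h1, h2⟩
  · constructor
    · rw [h1]; simp
    · rw [h2]; simp

omit [Fintype X] [DecidableEq X] [Fintype J] [DecidableEq J] in
lemma valid_inl {ι : Pos X J ≃ ZMod p} {σ τ : Perm (Pos X J)} (hv : Valid ι σ τ) (o : Option X) :
    ι (τ (.inl o)) = - ι (σ (.inl o)) := by
  rcases o with _ | i
  · rw [hv.1, hv.2.1]; simp
  · exact hv.2.2 (.inl i)

omit [Fintype X] [DecidableEq X] [Fintype J] [DecidableEq J] in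
lemma theta_inl {ι : Pos X J ≃ ZMod p} {σ τ : Perm (Pos X J)} (hv : Valid ι σ τ) (o : Option X) :
    (τ⁻¹ * nu ι * σ) (.inl o) = .inl o := by
  rw [Perm.mul_apply, Perm.mul_apply, Perm.inv_eq_iff_eq]
  apply ι.injective
  rw [nu_apply, valid_inl hv]

omit [Fintype X] [DecidableEq X] [Fintype J] [DecidableEq J] in
lemma tau_theta {ι : Pos X J ≃ ZMod p} {σ τ : Perm (Pos X J)} (q : Pos X J) :
    ι (τ ((τ⁻¹ * nu ι * σ) q)) = - ι (σ q) := by
  change ι (τ (τ.symm (nu ι (σ q)))) = - ι (σ q)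
  rw [Equiv.apply_symm_apply, nu_apply]

omit [Fintype X] [DecidableEq X] [Fintype J] [DecidableEq J] in
lemma valid_fl_inr {ι : Pos X J ≃ ZMod p} {σ τ : Perm (Pos X J)} (hv : Valid ι σ τ) (y : J × Bool) :
    ι (σ (fl (.inr y))) = - ι (σ (.inr y)) ∧ ι (τ (fl (.inr y))) = - ι (τ (.inr y)) := by
  obtain ⟨j, t⟩ := y
  exact valid_flip hv j t

omit [Fintype X] [DecidableEq X] [Fintype J] [DecidableEq J] in
lemma theta_inr {ι : Pos X J ≃ ZMod p} {σ τ : Perm (Pos X J)} (hv : Valid ι σ τ) (y : J × Bool) :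
    ∃ z, (τ⁻¹ * nu ι * σ) (.inr y) = .inr z := by
  rcases h : (τ⁻¹ * nu ι * σ) (.inr y) with o | z
  · rw [← theta_inl hv o] at h
    have := (τ⁻¹ * nu ι * σ).injective h
    simp at this
  · exact ⟨z, rfl⟩

omit [Fintype X] [DecidableEq X] [Fintype J] [DecidableEq J] in
lemma isC_theta {ι : Pos X J ≃ ZMod p} {σ τ : Perm (Pos X J)} (hv : Valid ι σ τ) :
    isC (τ⁻¹ * nu ι * σ) := by
  refine ⟨theta_inl hv, ?_⟩
  rintro (o | y)
  · change (τ⁻¹ * nu ι * σ) (.inl o) = _
    rw [theta_inl hv]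
    rfl
  · obtain ⟨z, hz⟩ := theta_inr hv y
    apply τ.injective
    apply ι.injective
    rw [tau_theta, (valid_fl_inr hv y).1, hz, (valid_fl_inr hv z).2, ← hz, tau_theta]

/-- the common value of the valid terms -/
lemma value {ι : Pos X J ≃ ZMod p} {σ τ : Perm (Pos X J)} (hv : Valid ι σ τ) :
    ((Perm.sign σ : ℤ) : ZMod p) * ((Perm.sign τ : ℤ) : ZMod p) * ∏ k, eA ι σ τ k =
      ((Perm.sign (nu ι) : ℤ) : ZMod p) * ∏ x : ZMod p, (if x = 0 then 1 else x) := by
  set θ := τ⁻¹ * nu ι * σ with hθ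
  have hC : isC θ := isC_theta hv
  obtain ⟨⟨α, β⟩, hαβ⟩ : θ ∈ (Perm.sumCongrHom (Option X) (J × Bool)).range := by
    apply Perm.mem_sumCongrHom_range_of_perm_mapsTo_inl
    rintro _ ⟨o, rfl⟩
    exact ⟨o, (hC.1 o).symm⟩
  have hαβ' : θ = Perm.sumCongr α β := hαβ.symm
  have hinr : ∀ y, θ (.inr y) = .inr (β y) := by
    intro y; rw [hαβ']; rfl
  have hα : α = 1 := by
    ext1 o
    have h1 := hC.1 o
    rw [hαβ'] at h1
    have h2 : (Sum.inl (α o) : Option X ⊕ (J × Bool)) = .inl o := h1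
    simpa using h2
  have hβ : ∀ j t, β (j, !t) = ((β (j, t)).1, !(β (j, t)).2) := by
    intro j t
    have h1 := hC.2 (.inr (j, t))
    have h2 : fl (X := X) (J := J) (.inr (j, t)) = .inr (j, !t) := rfl
    rw [h2, hinr, hinr] at h1
    have h3 : fl (X := X) (J := J) (.inr (β (j, t))) = .inr ((β (j, t)).1, !(β (j, t)).2) := rfl
    rw [h3] at h1
    exact Sum.inr_injective h1
  have hsθ : Perm.sign θ = ∏ j, (if (β (j, false)).2 then (-1 : ℤˣ) else 1) := by
    rw [hαβ', Perm.sign_sumCongr, hα, Perm.sign_one, one_mul, sign_flip β hβ]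
  have hsg : Perm.sign σ * Perm.sign τ = Perm.sign (nu ι) * Perm.sign θ := by
    rw [hθ, Perm.sign_mul, Perm.sign_mul, Perm.sign_inv]
    have := Int.units_mul_self (Perm.sign (nu ι))
    calc Perm.sign σ * Perm.sign τ = (Perm.sign (nu ι) * Perm.sign (nu ι)) * (Perm.sign σ * Perm.sign τ) := by
          rw [this, one_mul]
      _ = _ := by ac_rfl
  -- the product identity
  let π : Perm J := Equiv.ofBijective _ (Finite.injective_iff_bijective.mp (flip_bij β hβ))
  have hprod : ∏ j, (- ι (σ (.inr (j, false)))) =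
      ((Perm.sign θ : ℤ) : ZMod p) * ∏ j, ι (τ (.inr (j, false))) := by
    have h1 : ∀ j, - ι (σ (.inr (j, false))) =
        (((if (β (j, false)).2 then (-1 : ℤˣ) else 1 : ℤˣ) : ℤ) : ZMod p) * ι (τ (.inr (π j, false))) := by
      intro j
      rw [← tau_theta (τ := τ), ← hθ, hinr]
      have h2 : β (j, false) = (π j, (β (j, false)).2) := rfl
      by_cases h3 : (β (j, false)).2 = true
      · rw [h3] at h2
        rw [h2]
        have := (valid_flip hv (π j) false).2
        rw [Bool.not_false] at this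
        rw [this]
        simp
      · have h4 : (β (j, false)).2 = false := by simpa using h3
        rw [h4] at h2
        rw [h2]
        simp
    simp_rw [h1]
    rw [Finset.prod_mul_distrib, Equiv.prod_comp π (fun j => ι (τ (.inr (j, false)))), hsθ]
    push_cast
    rfl
  have hsgc : ((Perm.sign σ : ℤ) : ZMod p) * ((Perm.sign τ : ℤ) : ZMod p) =
      ((Perm.sign (nu ι) : ℤ) : ZMod p) * ((Perm.sign θ : ℤ) : ZMod p) := by
    have h2 : ((Perm.sign σ : ℤ)) * (Perm.sign τ : ℤ) = (Perm.sign (nu ι) : ℤ) * (Perm.sign θ : ℤ) := by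
      exact_mod_cast congrArg (fun u : ℤˣ => (u : ℤ)) hsg
    exact_mod_cast congrArg (fun z : ℤ => (z : ZMod p)) h2
  have hall : ∏ x : ZMod p, (if x = 0 then 1 else x) =
      (∏ i, ι (σ (.inl (some i)))) * ∏ j, (ι (σ (.inr (j, true))) * ι (σ (.inr (j, false)))) := by
    rw [← Equiv.prod_comp (σ.trans ι) (fun x => if x = 0 then 1 else x)]
    rw [Fintype.prod_sum_type, Fintype.prod_option, Fintype.prod_prod_type]
    simp only [Fintype.prod_bool, Equiv.trans_apply]
    rw [if_pos hv.1, one_mul]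
    congr 1
    · apply Finset.prod_congr rfl
      intro i _
      have := eA_ne_zero ι hv.1 hv.2.1 (.inl i)
      simp only [eA] at this
      rw [if_neg this]
    · apply Finset.prod_congr rfl
      intro j _
      have h1 := eA_ne_zero ι hv.1 hv.2.1 (.inr (.inl j))
      simp only [eA] at h1
      have h2 := (valid_flip hv j false).1
      rw [Bool.not_false] at h2
      rw [if_neg h1, if_neg]
      rw [h2]
      exact neg_ne_zero.mpr h1
  have hk : ∏ k, eA ι σ τ k = (∏ i, ι (σ (.inl (some i)))) *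
      ((∏ j, ι (σ (.inr (j, false)))) * (∏ j, ι (τ (.inr (j, false))))) := by
    rw [Fintype.prod_sum_type, Fintype.prod_sum_type]
    rfl
  rw [hk, hall, hsgc]
  have hlast : ∏ j, (ι (σ (.inr (j, true))) * ι (σ (.inr (j, false)))) =
      (∏ j, (- ι (σ (.inr (j, false))))) * ∏ j, ι (σ (.inr (j, false))) := by
    rw [← Finset.prod_mul_distrib]
    apply Finset.prod_congr rfl
    intro j _
    have h2 := (valid_flip hv j false).1
    rw [Bool.not_false] at h2
    rw [h2]
  rw [hlast, hprod]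
  ring

end Pool.Agent.Helper901PM
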