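import Mathlib

namespace Pool.Agent.Helper901PM

/-- The length of the edge joining `x` and `y` in the complete graph on `{0, ..., 2n-1}`:
the minimum of `|x - y|` and `2n - |x - y|`. -/
def len (n : ℕ) (x y : Fin (2 * n)) : ℕ :=
  min ((x : ℤ) - (y : ℤ)).natAbs (2 * n - ((x : ℤ) - (y : ℤ)).natAbs)

/-- The length of an edge, as a function of the unordered pair of its ends. -/
def edgeLength (n : ℕ) : Sym2 (Fin (2 * n)) → ℕ :=
  Sym2.lift ⟨len n, fun x y => by
    have h : ((x : ℤ) - (y : ℤ)).natAbs = ((y : ℤ) - (x : ℤ)).natAbs := by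
      rw [← Int.natAbs_neg, neg_sub]
    unfold len
    rw [h]⟩

/-- `F` is a perfect matching of the complete graph on `{0, ..., 2n-1}`: its members are pairs of
two different vertices, and every vertex lies in exactly one member of `F`. -/
def IsPerfectMatching (n : ℕ) (F : Finset (Sym2 (Fin (2 * n)))) : Prop :=
  (∀ e ∈ F, ¬ e.IsDiag) ∧ ∀ v : Fin (2 * n), ∃! e, e ∈ F ∧ v ∈ e

end Pool.Agent.Helper901PM
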