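import Mathlib
import Pool.Agent.Helper901PM.D

open Finset Equiv

namespace Pool.Agent.Helper901PM

variable {p : ℕ} [Fact p.Prime]
variable {X J : Type} [Fintype X] [DecidableEq X] [Fintype J] [DecidableEq J]

/-! ### counting -/

omit [Fintype X] [DecidableEq X] [Fintype J] [DecidableEq J] in
lemma fl_fl (q : Pos X J) : fl (fl q) = q := by
  rcases q with o | ⟨j, t⟩ <;> simp [fl]

def CC (X J : Type) : Subgroup (Perm (Pos X J)) where
  carrier := {θ | isC θ}
  mul_mem' := by
    rintro a b ⟨ha1, ha2⟩ ⟨hb1, hb2⟩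
    refine ⟨fun o => ?_, fun q => ?_⟩
    · rw [Perm.mul_apply, hb1, ha1]
    · rw [Perm.mul_apply, Perm.mul_apply, hb2, ha2]
  one_mem' := ⟨fun o => rfl, fun q => rfl⟩
  inv_mem' := by
    rintro a ⟨ha1, ha2⟩
    refine ⟨fun o => ?_, fun q => ?_⟩
    · rw [Perm.inv_eq_iff_eq, ha1]
    · rw [Perm.inv_eq_iff_eq, ha2]
      congr 1
      exact (a.apply_symm_apply q).symm

lemma card_pos (hc : Fintype.card X + 1 + 2 * Fintype.card J = p) :
    Fintype.card (Pos X J) = p := by
  simp only [Fintype.card_sum, Fintype.card_option, Fintype.card_prod, Fintype.card_bool]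
  omega

lemma not_dvd_stab (hc : Fintype.card X + 1 + 2 * Fintype.card J = p) :
    ¬ p ∣ Nat.card (MulAction.stabilizer (Perm (Pos X J)) (.inl none : Pos X J)) := by
  intro hd
  have h1 := Subgroup.card_mul_index (MulAction.stabilizer (Perm (Pos X J)) (.inl none : Pos X J))
  rw [MulAction.index_stabilizer_of_transitive, Nat.card_perm, Nat.card_eq_fintype_card (α := Pos X J),
    card_pos hc] at h1
  have hp := (Fact.out : p.Prime)
  obtain ⟨q, rfl⟩ : ∃ q, p = q + 1 := ⟨p - 1, by have := hp.one_lt; omega⟩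
  rw [Nat.factorial_succ, mul_comm] at h1
  have h2 := Nat.eq_of_mul_eq_mul_left (by omega) h1
  rw [h2, hp.dvd_factorial] at hd
  omega

lemma not_dvd_CC (hc : Fintype.card X + 1 + 2 * Fintype.card J = p) :
    ¬ p ∣ Nat.card (CC X J) := by
  intro hd
  apply not_dvd_stab (X := X) (J := J) hc
  refine hd.trans (Subgroup.card_dvd_of_le ?_)
  intro θ hθ
  rw [MulAction.mem_stabilizer_iff]
  exact hθ.1 none

/-- the conditions on `σ` alone, for pairs in `A` -/
def VA (ι : Pos X J ≃ ZMod p) (A : Finset J) (σ : Perm (Pos X J)) : Prop :=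
  ι (σ (.inl none)) = 0 ∧ ∀ j ∈ A, ι (σ (.inr (j, true))) = - ι (σ (.inr (j, false)))

lemma two_ne (hp2 : p ≠ 2) : (2 : ZMod p) ≠ 0 := by
  intro h
  have h2 : ((2 : ℕ) : ZMod p) = 0 := by exact_mod_cast h
  rw [ZMod.natCast_eq_zero_iff] at h2
  exact hp2 ((Nat.prime_dvd_prime_iff_eq (Fact.out) Nat.prime_two).mp h2)

open Classical in
lemma VA_step (hp2 : p ≠ 2) (ι : Pos X J ≃ ZMod p) (A : Finset J) (j0 : J) (hj : j0 ∉ A) :
    ∃ n, #{σ | VA ι A σ} = n * #{σ | VA ι (insert j0 A) σ} := by
  let Free : Finset (Pos X J) :=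
    {q | q ≠ .inl none ∧ q ≠ .inr (j0, false) ∧ ∀ j ∈ A, ∀ t, q ≠ .inr (j, t)}
  let φ : Perm (Pos X J) → Pos X J := fun σ => σ⁻¹ (ι.symm (- ι (σ (.inr (j0, false)))))
  have hφ : ∀ σ q, φ σ = q ↔ ι (σ q) = - ι (σ (.inr (j0, false))) := by
    intro σ q
    simp only [φ]
    rw [Perm.inv_eq_iff_eq, Equiv.symm_apply_eq]
    exact eq_comm
  have hmaps : ∀ σ ∈ ({σ | VA ι A σ} : Finset (Perm (Pos X J))), φ σ ∈ Free := by
    intro σ hσ
    rw [Finset.mem_filter] at hσ
    obtain ⟨-, h0, hA⟩ := hσ
    have hq := (hφ σ (φ σ)).mp rfl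
    have ha : ι (σ (.inr (j0, false))) ≠ 0 := by
      intro h
      rw [← h0] at h
      have := σ.injective (ι.injective h)
      simp at this
    simp only [Free, Finset.mem_filter, Finset.mem_univ, true_and]
    refine ⟨?_, ?_, ?_⟩
    · intro h
      rw [h, h0] at hq
      apply ha
      linear_combination hq
    · intro h
      rw [h] at hq
      apply ha
      have h2 : (2 : ZMod p) * ι (σ (.inr (j0, false))) = 0 := by linear_combination hq
      exact (mul_eq_zero.mp h2).resolve_left (two_ne hp2)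
    · intro j hjA t h
      rw [h] at hq
      have h3 := hA j hjA
      cases t
      · have h4 : ι (σ (.inr (j, true))) = ι (σ (.inr (j0, false))) := by
          rw [h3, hq]; ring
        have := σ.injective (ι.injective h4)
        simp at this
      · have h4 : ι (σ (.inr (j, false))) = ι (σ (.inr (j0, false))) := by
          rw [h3] at hq
          exact neg_injective hq
        have := σ.injective (ι.injective h4)
        simp only [Sum.inr.injEq, Prod.mk.injEq, and_true] at this
        exact hj (this ▸ hjA)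
  have hfib : ∀ q ∈ Free, #{σ ∈ ({σ | VA ι A σ} : Finset (Perm (Pos X J))) | φ σ = q} =
      #{σ | VA ι (insert j0 A) σ} := by
    intro q hq
    simp only [Free, Finset.mem_filter, Finset.mem_univ, true_and] at hq
    obtain ⟨hq1, hq2, hq3⟩ := hq
    have key : ∀ σ : Perm (Pos X J), ∀ r, r ≠ q → r ≠ .inr (j0, true) →
        (σ * swap q (.inr (j0, true))) r = σ r := by
      intro σ r h1 h2
      rw [Perm.mul_apply, swap_apply_of_ne_of_ne h1 h2]
    apply Finset.card_nbij' (fun σ => σ * swap q (.inr (j0, true)))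
      (fun σ => σ * swap q (.inr (j0, true)))
    · intro σ hσ
      simp only [Finset.coe_filter, Finset.mem_filter, Finset.mem_univ, true_and, Set.mem_setOf_eq] at hσ ⊢
      obtain ⟨⟨h0, hA⟩, h1⟩ := hσ
      rw [hφ] at h1
      refine ⟨?_, ?_⟩
      · rw [key σ _ hq1.symm (by simp), h0]
      · intro j hjm
        rw [Finset.mem_insert] at hjm
        rcases hjm with rfl | hjA
        · rw [key σ (.inr (j, false)) hq2.symm (by simp), Perm.mul_apply, swap_apply_right, h1]
        · have hne : j ≠ j0 := fun h => hj (h ▸ hjA)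
          rw [key σ _ (hq3 j hjA true).symm (by simp [hne]), key σ _ (hq3 j hjA false).symm (by simp [hne]),
            hA j hjA]
    · intro σ hσ
      simp only [Finset.coe_filter, Finset.mem_filter, Finset.mem_univ, true_and, Set.mem_setOf_eq] at hσ ⊢
      obtain ⟨h0, hA⟩ := hσ
      refine ⟨⟨?_, ?_⟩, ?_⟩
      · rw [key σ _ hq1.symm (by simp), h0]
      · intro j hjA
        have hne : j ≠ j0 := fun h => hj (h ▸ hjA)
        rw [key σ _ (hq3 j hjA true).symm (by simp [hne]), key σ _ (hq3 j hjA false).symm (by simp [hne]),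
            hA j (Finset.mem_insert_of_mem hjA)]
      · rw [hφ, key σ (.inr (j0, false)) hq2.symm (by simp), Perm.mul_apply, swap_apply_left]
        exact hA j0 (Finset.mem_insert_self _ _)
    · intro σ _
      change σ * swap q (.inr (j0, true)) * swap q (.inr (j0, true)) = σ
      rw [mul_assoc, swap_mul_self, mul_one]
    · intro σ _
      change σ * swap q (.inr (j0, true)) * swap q (.inr (j0, true)) = σ
      rw [mul_assoc, swap_mul_self, mul_one]
  refine ⟨#Free, ?_⟩
  rw [Finset.card_eq_sum_card_fiberwise hmaps, Finset.sum_congr rfl hfib, Finset.sum_const, smul_eq_mul]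

open Classical in
lemma VA_empty (hc : Fintype.card X + 1 + 2 * Fintype.card J = p) (ι : Pos X J ≃ ZMod p)
    (hι : ι (.inl none) = 0) : ¬ p ∣ #{σ | VA ι ∅ σ} := by
  have h1 := not_dvd_stab (X := X) (J := J) hc
  have h2 : #{σ | VA ι ∅ σ} =
      Nat.card (MulAction.stabilizer (Perm (Pos X J)) (.inl none : Pos X J)) := by
    rw [Nat.card_eq_fintype_card, ← Fintype.card_subtype]
    apply Fintype.card_congr
    apply Equiv.subtypeEquivRight
    intro σ
    rw [MulAction.mem_stabilizer_iff]
    constructor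
    · intro h
      have h3 := h.1
      rw [← hι] at h3
      exact ι.injective h3
    · intro h
      refine ⟨?_, by simp⟩
      have h3 : σ (.inl none) = .inl none := h
      rw [h3, hι]
  rw [h2]
  exact h1

open Classical in
lemma VA_all (hp2 : p ≠ 2) (hc : Fintype.card X + 1 + 2 * Fintype.card J = p) (ι : Pos X J ≃ ZMod p)
    (hι : ι (.inl none) = 0) (A : Finset J) : ¬ p ∣ #{σ | VA ι A σ} := by
  induction A using Finset.induction_on with
  | empty => exact VA_empty hc ι hι
  | insert j0 A hj ih =>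
    intro hd
    apply ih
    obtain ⟨n, hn⟩ := VA_step hp2 ι A j0 hj
    rw [hn]
    exact hd.mul_left n

open Classical in
lemma card_tau (ι : Pos X J ≃ ZMod p) (σ : Perm (Pos X J)) (hσ : VA ι Finset.univ σ) :
    #{τ | Valid ι σ τ} = Nat.card (CC X J) := by
  have hσfl : ∀ y : J × Bool, ι (σ (fl (.inr y))) = - ι (σ (.inr y)) := by
    rintro ⟨j, t⟩
    have h := hσ.2 j (Finset.mem_univ j)
    cases t
    · exact h
    · change ι (σ (.inr (j, false))) = - ι (σ (.inr (j, true)))
      rw [h]; ring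
  rw [Nat.card_eq_fintype_card, ← Fintype.card_subtype]
  apply Fintype.card_congr
  refine ⟨fun τ => ⟨(τ.1)⁻¹ * nu ι * σ, isC_theta τ.2⟩, fun θ => ⟨nu ι * σ * (θ.1)⁻¹, ?_⟩, ?_, ?_⟩
  · obtain ⟨θ, hθ⟩ := θ
    have hθ' : isC θ⁻¹ := (CC X J).inv_mem hθ
    have e1 : ∀ r, ι ((nu ι * σ * θ⁻¹) r) = - ι (σ (θ⁻¹ r)) := by
      intro r
      rw [Perm.mul_apply, Perm.mul_apply, nu_apply]
    refine ⟨hσ.1, ?_, ?_⟩
    · rw [e1, hθ'.1, hσ.1]; simp
    · rintro (i | j | j)
      · simp only [eA, eB]
        rw [e1, hθ'.1]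
      · simp only [eA, eB]
        exact hσ.2 j (Finset.mem_univ j)
      · simp only [eA, eB]
        rw [e1, e1]
        have h2 : θ⁻¹ (.inr (j, true)) = fl (θ⁻¹ (.inr (j, false))) := by
          rw [← hθ'.2]
          rfl
        rw [h2]
        have h3 : ∃ z, θ⁻¹ (.inr (j, false)) = .inr z := by
          rcases h : θ⁻¹ (.inr (j, false)) with o | z
          · rw [← hθ'.1 o] at h
            have := (θ⁻¹).injective h
            simp at this
          · exact ⟨z, rfl⟩
        obtain ⟨z, hz⟩ := h3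
        rw [hz, hσfl]
  · rintro ⟨τ, hτ⟩
    simp only [Subtype.mk.injEq]
    group
  · rintro ⟨θ, hθ⟩
    simp only [Subtype.mk.injEq]
    group

open Classical in
lemma card_valid (hp2 : p ≠ 2) (hc : Fintype.card X + 1 + 2 * Fintype.card J = p)
    (ι : Pos X J ≃ ZMod p) (hι : ι (.inl none) = 0) :
    ¬ p ∣ ∑ σ : Perm (Pos X J), #{τ | Valid ι σ τ} := by
  have h1 : ∑ σ : Perm (Pos X J), #{τ | Valid ι σ τ} =
      #{σ | VA ι (Finset.univ : Finset J) σ} * Nat.card (CC X J) := by
    rw [← smul_eq_mul, ← Finset.sum_const, Finset.sum_filter]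
    apply Finset.sum_congr rfl
    intro σ _
    split_ifs with h
    · exact card_tau ι σ h
    · rw [Finset.card_eq_zero, Finset.filter_eq_empty_iff]
      intro τ _ hv
      apply h
      refine ⟨hv.1, ?_⟩
      intro j _
      exact (valid_flip hv j false).1
  rw [h1, (Fact.out : p.Prime).dvd_mul]
  rintro (h | h)
  · exact VA_all hp2 hc ι hι _ h
  · exact not_dvd_CC hc h

end Pool.Agent.Helper901PM
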