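import Mathlib
import Pool.Agent.Helper901PM.E

open Finset Equiv

namespace Pool.Agent.Helper901PM

variable {p : ℕ} [Fact p.Prime]
variable {X J : Type} [Fintype X] [DecidableEq X] [Fintype J] [DecidableEq J]

lemma intsign_ne (σ : Perm (Pos X J)) : ((Perm.sign σ : ℤ) : ZMod p) ≠ 0 := by
  rcases Int.units_eq_one_or (Perm.sign σ) with h | h <;> rw [h] <;> simp

open Classical in
lemma SS_ne (hp2 : p ≠ 2) (hc : Fintype.card X + 1 + 2 * Fintype.card J = p)
    (ι : Pos X J ≃ ZMod p) (hι : ι (.inl none) = 0) (δ : ZMod p) (γ : Edg X J → ZMod p)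
    (hγ : ∀ k, γ k ≠ 0) : SS ι δ γ ≠ 0 := by
  have h1 : SS ι δ γ = (∑ σ : Perm (Pos X J), (#{τ | Valid ι σ τ} : ZMod p)) *
      ((∏ k, 4 * γ k) * (((Perm.sign (nu ι) : ℤ) : ZMod p) * ∏ x : ZMod p, (if x = 0 then 1 else x))) := by
    rw [SS_eq, Finset.sum_mul]
    apply Finset.sum_congr rfl
    intro σ _
    have h2 : ((#{τ | Valid ι σ τ} : ℕ) : ZMod p) = ∑ τ : Perm (Pos X J), (if Valid ι σ τ then (1 : ZMod p) else 0) := by
      rw [Finset.sum_boole]
    rw [h2, Finset.sum_mul]
    apply Finset.sum_congr rfl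
    intro τ _
    split_ifs with hv
    · rw [term_valid ι δ γ hv, one_mul, ← value hv]
      ring
    · have h3 : (0 ^ (ι (σ (.inl none))).val * δ ^ (ι (τ (.inl none))).val *
        ∏ k, E (γ k) (eA ι σ τ k).val (eB ι σ τ k).val) = 0 := by
        by_contra h
        exact hv (valid_of_ne hc ι δ γ h)
      rw [h3]
      ring
  rw [h1]
  have h4 : (4 : ZMod p) ≠ 0 := by
    have h2 := two_ne hp2
    have : (4 : ZMod p) = 2 * 2 := by norm_num
    rw [this]
    exact mul_ne_zero h2 h2
  refine mul_ne_zero ?_ (mul_ne_zero ?_ (mul_ne_zero (intsign_ne _) ?_))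
  · have h5 := card_valid hp2 hc ι hι
    rw [← ZMod.natCast_eq_zero_iff] at h5
    push_cast at h5
    exact h5
  · rw [Finset.prod_ne_zero_iff]
    intro k _
    exact mul_ne_zero h4 (hγ k)
  · rw [Finset.prod_ne_zero_iff]
    intro x _
    split_ifs with h
    · exact one_ne_zero
    · exact h

/-- The tiling theorem: two copies of `ZMod p` can be partitioned into cross edges with prescribed
differences (up to sign) and edges inside the two copies with prescribed differences. -/
theorem tiling (hp2 : p ≠ 2) (hc : Fintype.card X + 1 + 2 * Fintype.card J = p)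
    (δ : ZMod p) (γ : Edg X J → ZMod p) (hγ : ∀ k, γ k ≠ 0) :
    ∃ cf : Edg X J → ZMod p × Bool, Function.Injective (W0 γ cf) ∧
      Function.Injective (W1 δ γ cf) := by
  classical
  have hcard : Fintype.card (Pos X J) = Fintype.card (ZMod p) := by
    rw [card_pos hc, ZMod.card]
  let ι0 : Pos X J ≃ ZMod p := Fintype.equivOfCardEq hcard
  let ι : Pos X J ≃ ZMod p := ι0.trans (Equiv.swap (ι0 (.inl none)) 0)
  have hι : ι (.inl none) = 0 := by simp [ι]
  have hS := SS_ne hp2 hc ι hι δ γ hγ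
  unfold SS at hS
  obtain ⟨cf, -, hcf⟩ := Finset.exists_ne_zero_of_sum_ne_zero hS
  have h1 := right_ne_zero_of_mul hcf
  exact ⟨cf, inj_of_det ι _ (left_ne_zero_of_mul h1), inj_of_det ι _ (right_ne_zero_of_mul h1)⟩

end Pool.Agent.Helper901PM
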