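import Mathlib
import Pool.Agent.Helper901PM.Defs

open Finset

namespace Pool.Agent.Helper901PM

/-! ### necessity -/

lemma len_parity (n : ℕ) (x y : Fin (2 * n)) :
    ((len n x y : ℕ) : ZMod 2) = ((x : ℕ) : ZMod 2) + ((y : ℕ) : ZMod 2) := by
  have hx := x.2
  have hy := y.2
  have h1 : (len n x y) % 2 = ((x : ℕ) + (y : ℕ)) % 2 := by
    unfold len
    omega
  have h2 := (ZMod.natCast_eq_natCast_iff' (len n x y) ((x : ℕ) + (y : ℕ)) 2).mpr h1
  rw [h2]
  push_cast
  rfl

lemma sum_matching {n : ℕ} {F : Finset (Sym2 (Fin (2 * n)))} (hF : IsPerfectMatching n F) :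
    ∑ v : Fin (2 * n), ((v : ℕ) : ZMod 2) = ∑ e ∈ F, ((edgeLength n e : ℕ) : ZMod 2) := by
  classical
  have h1 : ∀ v : Fin (2 * n), ((v : ℕ) : ZMod 2) =
      ∑ e ∈ F, if v ∈ e then ((v : ℕ) : ZMod 2) else 0 := by
    intro v
    obtain ⟨e, ⟨he, hve⟩, huniq⟩ := hF.2 v
    rw [Finset.sum_eq_single e]
    · rw [if_pos hve]
    · intro e' he' hne
      rw [if_neg]
      intro h
      exact hne (huniq e' ⟨he', h⟩)
    · intro h
      exact absurd he h
  rw [Finset.sum_congr rfl (fun v _ => h1 v), Finset.sum_comm]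
  apply Finset.sum_congr rfl
  intro e he
  have hd := hF.1 e he
  induction e using Sym2.ind with
  | _ x y =>
    rw [Sym2.mk_isDiag_iff] at hd
    have h2 : edgeLength n s(x, y) = len n x y := rfl
    rw [h2, len_parity]
    have h3 : ∀ v : Fin (2 * n), (if v ∈ s(x, y) then ((v : ℕ) : ZMod 2) else 0) =
        (if v = x then ((v : ℕ) : ZMod 2) else 0) + (if v = y then ((v : ℕ) : ZMod 2) else 0) := by
      intro v
      simp only [Sym2.mem_iff]
      by_cases h4 : v = x
      · subst h4
        simp [hd]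
      · simp [h4]
    simp_rw [h3]
    rw [Finset.sum_add_distrib]
    simp

lemma sum_even_odd (L : Multiset ℕ) :
    ((L.map (fun l => ((l : ℕ) : ZMod 2))).sum : ZMod 2) =
      ((Multiset.card L : ℕ) : ZMod 2) + ((Multiset.card (L.filter Even) : ℕ) : ZMod 2) := by
  induction L using Multiset.induction_on with
  | empty => simp
  | cons a s ih =>
    rw [Multiset.map_cons, Multiset.sum_cons, ih, Multiset.card_cons]
    by_cases ha : Even a
    · rw [Multiset.filter_cons_of_pos _ ha, Multiset.card_cons]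
      have h0 : ((a : ℕ) : ZMod 2) = 0 := (ZMod.natCast_eq_zero_iff_even).mpr ha
      rw [h0]
      push_cast
      have h2 : (1 : ZMod 2) + 1 = 0 := by decide
      linear_combination -h2
    · rw [Multiset.filter_cons_of_neg _ ha]
      have h0 : ((a : ℕ) : ZMod 2) = 1 := (ZMod.natCast_eq_one_iff_odd).mpr (Nat.not_even_iff_odd.mp ha)
      rw [h0]
      push_cast
      ring

theorem necessity {p : ℕ} (hodd : Odd p) {L : Multiset ℕ} (hcard : Multiset.card L = p)
    {F : Finset (Sym2 (Fin (2 * p)))} (hF : IsPerfectMatching p F)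
    (hL : F.val.map (edgeLength p) = L) : Even (Multiset.card (L.filter Even)) := by
  have h1 := sum_matching hF
  have h2 : ∑ v : Fin (2 * p), ((v : ℕ) : ZMod 2) = 1 := by
    have h3 := Fin.sum_univ_eq_sum_range (fun i => i) (2 * p)
    have h4 : ∑ v : Fin (2 * p), ((v : ℕ) : ZMod 2) = ((∑ v : Fin (2 * p), (v : ℕ) : ℕ) : ZMod 2) := by
      push_cast; rfl
    rw [h4, h3]
    have h5 := Finset.sum_range_id_mul_two (2 * p)
    have h6 : ∑ i ∈ range (2 * p), i = p * (2 * p - 1) := by
      have : (∑ i ∈ range (2 * p), i) * 2 = (p * (2 * p - 1)) * 2 := by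
        rw [h5]; ring
      omega
    rw [h6, ZMod.natCast_eq_one_iff_odd]
    apply hodd.mul
    obtain ⟨k, hk⟩ := hodd
    exact ⟨2 * k, by omega⟩
  have h3 : ∑ e ∈ F, ((edgeLength p e : ℕ) : ZMod 2) =
      (L.map (fun l => ((l : ℕ) : ZMod 2))).sum := by
    rw [← hL, Multiset.map_map]
    rfl
  rw [h2, h3, sum_even_odd, hcard] at h1
  have h4 : ((p : ℕ) : ZMod 2) = 1 := (ZMod.natCast_eq_one_iff_odd).mpr hodd
  rw [h4] at h1
  rw [← ZMod.natCast_eq_zero_iff_even]
  linear_combination -h1

/-! ### vertices -/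

/-- the vertex of parity `t` and residue `x` modulo `p` -/
def vert {p : ℕ} [NeZero p] (t : Bool) (x : ZMod p) : Fin (2 * p) :=
  ⟨if x.val % 2 = t.toNat then x.val else x.val + p, by
    have := ZMod.val_lt x
    split_ifs <;> omega⟩

lemma vert_cast {p : ℕ} [NeZero p] (t : Bool) (x : ZMod p) :
    (((vert t x : Fin (2 * p)) : ℕ) : ZMod p) = x := by
  unfold vert
  simp only []
  split_ifs
  · rw [ZMod.natCast_zmod_val]
  · push_cast
    rw [ZMod.natCast_zmod_val]
    simp

lemma vert_mod {p : ℕ} [NeZero p] (hodd : Odd p) (t : Bool) (x : ZMod p) :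
    ((vert t x : Fin (2 * p)) : ℕ) % 2 = t.toNat := by
  obtain ⟨k, hk⟩ := hodd
  unfold vert
  simp only []
  have ht : t.toNat = 0 ∨ t.toNat = 1 := by cases t <;> simp
  split_ifs with h
  · exact h
  · omega

lemma vert_inj {p : ℕ} [NeZero p] (hodd : Odd p) {t t' : Bool} {x x' : ZMod p}
    (h : vert t x = vert t' x') : t = t' ∧ x = x' := by
  constructor
  · have h1 := vert_mod hodd t x
    have h2 := vert_mod hodd t' x'
    rw [h] at h1
    rw [h1] at h2
    cases t <;> cases t' <;> simp_all
  · rw [← vert_cast t x, ← vert_cast t' x', h]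

/-- if the residues modulo `p` differ by plus or minus `l` and the parity of the difference is
that of `l` then the length is `l` -/
lemma len_vert {p : ℕ} [NeZero p] (hodd : Odd p) (t t' : Bool) (x x' : ZMod p) (l : ℕ)
    (h1 : 1 ≤ l) (h2 : l ≤ p - 1) (hpar : (t.toNat + t'.toNat) % 2 = l % 2)
    (hx : x - x' = (l : ZMod p) ∨ x' - x = (l : ZMod p)) :
    len p (vert t x) (vert t' x') = l := by
  obtain ⟨k, hk⟩ := hodd
  have e1 := vert_mod ⟨k, hk⟩ t x
  have e2 := vert_mod ⟨k, hk⟩ t' x'
  have b1 := (vert t x).2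
  have b2 := (vert t' x').2
  have c1 := vert_cast t x
  have c2 := vert_cast t' x'
  set a := ((vert t x : Fin (2 * p)) : ℕ) with ha
  set b := ((vert t' x' : Fin (2 * p)) : ℕ) with hb
  have hdvd : (p : ℤ) ∣ ((a : ℤ) - b - l) ∨ (p : ℤ) ∣ ((b : ℤ) - a - l) := by
    rcases hx with h | h
    · left
      rw [← ZMod.intCast_zmod_eq_zero_iff_dvd]
      push_cast
      rw [c1, c2, h]
      ring
    · right
      rw [← ZMod.intCast_zmod_eq_zero_iff_dvd]
      push_cast
      rw [c1, c2, h]
      ring
  unfold len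
  rw [← ha, ← hb]
  have key : ∀ a b : ℕ, a < 2 * p → b < 2 * p → (a + b) % 2 = l % 2 → (p : ℤ) ∣ ((a : ℤ) - b - l) →
      min ((a : ℤ) - b).natAbs (2 * p - ((a : ℤ) - b).natAbs) = l := by
    intro a b ha hb hab ⟨c, hc⟩
    have hc1 : c < 2 := by
      by_contra h
      push Not at h
      have : (p : ℤ) * 2 ≤ (p : ℤ) * c := mul_le_mul_of_nonneg_left h (by positivity)
      omega
    have hc2 : -3 < c := by
      by_contra h
      push Not at h
      have : (p : ℤ) * c ≤ (p : ℤ) * (-3) := mul_le_mul_of_nonneg_left h (by positivity)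
      omega
    interval_cases c <;> omega
  rcases hdvd with h | h
  · exact key a b b1 b2 (by omega) h
  · have := key b a b2 b1 (by omega) h
    have h3 : ((b : ℤ) - a).natAbs = ((a : ℤ) - b).natAbs := by
      rw [← Int.natAbs_neg, neg_sub]
    rw [h3] at this
    exact this

lemma exists_map {ι : Type} [Fintype ι] {α : Type} (M : Multiset α)
    (h : Fintype.card ι = Multiset.card M) : ∃ f : ι → α, (Finset.univ : Finset ι).val.map f = M := by
  classical
  induction M using Quotient.inductionOn with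
  | _ l =>
    have hl : Fintype.card ι = l.length := by simpa using h
    let e : ι ≃ Fin l.length := Fintype.equivFinOfCardEq hl
    refine ⟨fun i => l.get (e i), ?_⟩
    have h1 : (Finset.univ : Finset ι).val.map (fun i => l.get (e i)) =
        ((Finset.univ : Finset ι).val.map e).map l.get := by
      rw [Multiset.map_map]; rfl
    have h2 : (Finset.univ : Finset ι).val.map e = (Finset.univ : Finset (Fin l.length)).val := by
      have := congrArg Finset.val (Finset.map_univ_equiv e)
      rw [Finset.map_val] at this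
      exact this
    rw [h1, h2, Fin.univ_val_map, List.ofFn_get]
    rfl

end Pool.Agent.Helper901PM
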