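import Mathlib
import Pool.Agent.Helper901PM.F
import Pool.Agent.Helper901PM.G

open Finset

namespace Pool.Agent.Helper901PM

section

variable {p : ℕ} [Fact p.Prime] {X J : Type} [Fintype X] [DecidableEq X] [Fintype J] [DecidableEq J]

/-- the edges, the special one included -/
abbrev EdgS (X J : Type) := Option X ⊕ (J ⊕ J)

/-- first end -/
def q1 : EdgS X J → Pos X J ⊕ Pos X J
  | .inl o => .inl (.inl o)
  | .inr (.inl j) => .inl (.inr (j, false))
  | .inr (.inr j) => .inr (.inr (j, false))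

/-- second end -/
def q2 : EdgS X J → Pos X J ⊕ Pos X J
  | .inl o => .inr (.inl o)
  | .inr (.inl j) => .inl (.inr (j, true))
  | .inr (.inr j) => .inr (.inr (j, true))

/-- the edge at an end -/
def kap : Pos X J ⊕ Pos X J → EdgS X J
  | .inl (.inl o) => .inl o
  | .inl (.inr (j, _)) => .inr (.inl j)
  | .inr (.inl o) => .inl o
  | .inr (.inr (j, _)) => .inr (.inr j)

omit [Fintype X] [DecidableEq X] [Fintype J] [DecidableEq J] in
lemma kap_iff (q : Pos X J ⊕ Pos X J) (k : EdgS X J) : (q = q1 k ∨ q = q2 k) ↔ kap q = k := by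
  rcases q with (o | ⟨j, _ | _⟩) | (o | ⟨j, _ | _⟩) <;> rcases k with (o' | j' | j') <;>
    simp [q1, q2, kap]

omit [Fintype X] [DecidableEq X] [Fintype J] [DecidableEq J] in
lemma q1_ne_q2 (k : EdgS X J) : q1 k ≠ q2 k := by
  rcases k with (o' | j' | j') <;> simp [q1, q2]

/-- the vertex at an end -/
def VV (W0 W1 : Pos X J → ZMod p) : Pos X J ⊕ Pos X J → Fin (2 * p)
  | .inl q => vert false (W0 q)
  | .inr q => vert true (W1 q)

lemma VV_inj (hodd : Odd p) {W0 W1 : Pos X J → ZMod p} (h0 : Function.Injective W0)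
    (h1 : Function.Injective W1) : Function.Injective (VV W0 W1) := by
  rintro (q | q) (q' | q') h
  · rw [h0 (vert_inj hodd h).2]
  · have := (vert_inj hodd h).1
    simp at this
  · have := (vert_inj hodd h).1
    simp at this
  · rw [h1 (vert_inj hodd h).2]

lemma VV_surj (hodd : Odd p) (hc : Fintype.card X + 1 + 2 * Fintype.card J = p)
    {W0 W1 : Pos X J → ZMod p} (h0 : Function.Injective W0)
    (h1 : Function.Injective W1) : Function.Surjective (VV W0 W1) := by
  have h := (Fintype.bijective_iff_injective_and_card (VV W0 W1)).mpr ⟨VV_inj hodd h0 h1, by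
    rw [Fintype.card_sum, card_pos hc, Fintype.card_fin]; ring⟩
  exact h.2

/-- the edges of the matching -/
def ed (W0 W1 : Pos X J → ZMod p) (k : EdgS X J) : Sym2 (Fin (2 * p)) :=
  s(VV W0 W1 (q1 k), VV W0 W1 (q2 k))

lemma mem_ed (hodd : Odd p) {W0 W1 : Pos X J → ZMod p} (h0 : Function.Injective W0)
    (h1 : Function.Injective W1) (q : Pos X J ⊕ Pos X J) (k : EdgS X J) :
    VV W0 W1 q ∈ ed W0 W1 k ↔ kap q = k := by
  unfold ed
  rw [Sym2.mem_iff, (VV_inj hodd h0 h1).eq_iff, (VV_inj hodd h0 h1).eq_iff, kap_iff]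

lemma ed_inj (hodd : Odd p) {W0 W1 : Pos X J → ZMod p} (h0 : Function.Injective W0)
    (h1 : Function.Injective W1) : Function.Injective (ed W0 W1) := by
  intro k k' h
  have h2 : kap (q1 k) = k := (kap_iff _ _).mp (Or.inl rfl)
  have h3 : VV W0 W1 (q1 k) ∈ ed W0 W1 k := (mem_ed hodd h0 h1 _ _).mpr h2
  rw [h, mem_ed hodd h0 h1, h2] at h3
  exact h3

/-- the matching -/
def FF (hodd : Odd p) {W0 W1 : Pos X J → ZMod p} (h0 : Function.Injective W0)
    (h1 : Function.Injective W1) : Finset (Sym2 (Fin (2 * p))) :=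
  Finset.univ.map ⟨ed W0 W1, ed_inj hodd h0 h1⟩

lemma FF_matching (hodd : Odd p) (hc : Fintype.card X + 1 + 2 * Fintype.card J = p)
    {W0 W1 : Pos X J → ZMod p} (h0 : Function.Injective W0)
    (h1 : Function.Injective W1) : IsPerfectMatching p (FF hodd h0 h1) := by
  constructor
  · intro e he
    unfold FF at he
    rw [Finset.mem_map] at he
    obtain ⟨k, -, rfl⟩ := he
    change ¬ (ed W0 W1 k).IsDiag
    unfold ed
    rw [Sym2.mk_isDiag_iff]
    intro h
    exact q1_ne_q2 k (VV_inj hodd h0 h1 h)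
  · intro v
    obtain ⟨q, rfl⟩ := VV_surj hodd hc h0 h1 v
    refine ⟨ed W0 W1 (kap q), ⟨?_, ?_⟩, ?_⟩
    · unfold FF
      rw [Finset.mem_map]
      exact ⟨kap q, Finset.mem_univ _, rfl⟩
    · exact (mem_ed hodd h0 h1 _ _).mpr rfl
    · rintro e ⟨he, hv⟩
      unfold FF at he
      rw [Finset.mem_map] at he
      obtain ⟨k, -, rfl⟩ := he
      change VV W0 W1 q ∈ ed W0 W1 k at hv
      rw [mem_ed hodd h0 h1] at hv
      rw [hv]
      rfl

lemma FF_lengths (hodd : Odd p) {W0 W1 : Pos X J → ZMod p} (h0 : Function.Injective W0)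
    (h1 : Function.Injective W1) (l : EdgS X J → ℕ)
    (hl : ∀ k, edgeLength p (ed W0 W1 k) = l k) :
    (FF hodd h0 h1).val.map (edgeLength p) = (Finset.univ : Finset (EdgS X J)).val.map l := by
  unfold FF
  rw [Finset.map_val, Multiset.map_map]
  apply Multiset.map_congr rfl
  intro k _
  exact hl k

end

lemma sg_cases {p : ℕ} [Fact p.Prime] (s : Bool) : (sg s : ZMod p) = 1 ∨ (sg s : ZMod p) = -1 := by
  cases s
  · left; rfl
  · right; rfl

theorem sufficiency {p : ℕ} (hp : p.Prime) (hodd : Odd p) {L : Multiset ℕ}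
    (hcard : Multiset.card L = p) (hL : ∀ l ∈ L, 1 ≤ l ∧ l ≤ p - 1)
    (heven : Even (Multiset.card (L.filter Even))) :
    ∃ F : Finset (Sym2 (Fin (2 * p))), IsPerfectMatching p F ∧ F.val.map (edgeLength p) = L := by
  have : Fact p.Prime := ⟨hp⟩
  have hp1 := hp.one_lt
  have hp2 : p ≠ 2 := by
    rintro rfl
    exact absurd hodd (by decide)
  obtain ⟨m, hm⟩ := heven
  set Lo := L.filter (fun l => ¬ Even l) with hLo
  set Le := L.filter Even with hLe
  have hsplit : Le + Lo = L := Multiset.filter_add_not _ _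
  have hcards : Multiset.card Le + Multiset.card Lo = p := by
    rw [← Multiset.card_add, hsplit, hcard]
  obtain ⟨e, he⟩ : ∃ e, Multiset.card Lo = e + 1 := by
    refine ⟨Multiset.card Lo - 1, ?_⟩
    obtain ⟨k, hk⟩ := hodd
    omega
  obtain ⟨lo, hlo⟩ := exists_map (ι := Option (Fin e)) Lo (by simp [he])
  obtain ⟨le, hle⟩ := exists_map (ι := Fin m ⊕ Fin m) Le (by simp [hm])
  have hc : Fintype.card (Fin e) + 1 + 2 * Fintype.card (Fin m) = p := by
    simp only [Fintype.card_fin]; omega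
  have hlo_mem : ∀ o, lo o ∈ Lo := by
    intro o
    rw [← hlo]
    exact Multiset.mem_map_of_mem _ (Finset.mem_univ_val o)
  have hle_mem : ∀ k, le k ∈ Le := by
    intro k
    rw [← hle]
    exact Multiset.mem_map_of_mem _ (Finset.mem_univ_val k)
  have hlo1 : ∀ o, (1 ≤ lo o ∧ lo o ≤ p - 1) ∧ lo o % 2 = 1 := by
    intro o
    have h := hlo_mem o
    rw [hLo, Multiset.mem_filter] at h
    refine ⟨hL _ h.1, ?_⟩
    rw [Nat.not_even_iff] at h
    exact h.2
  have hle1 : ∀ k, (1 ≤ le k ∧ le k ≤ p - 1) ∧ le k % 2 = 0 := by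
    intro k
    have h := hle_mem k
    rw [hLe, Multiset.mem_filter] at h
    refine ⟨hL _ h.1, ?_⟩
    rw [Nat.even_iff] at h
    exact h.2
  have h2 := two_ne (p := p) hp2
  have hcast : ∀ l : ℕ, 1 ≤ l → l ≤ p - 1 → (l : ZMod p) ≠ 0 := by
    intro l h1 h3 h0
    rw [ZMod.natCast_eq_zero_iff] at h0
    have := Nat.le_of_dvd (by omega) h0
    omega
  let l : EdgS (Fin e) (Fin m) → ℕ := Sum.elim lo le
  let ll : Edg (Fin e) (Fin m) → ℕ := Sum.elim (fun i => lo (some i)) le
  have hll : ∀ k, 1 ≤ ll k ∧ ll k ≤ p - 1 := by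
    rintro (i | k)
    · exact (hlo1 (some i)).1
    · exact (hle1 k).1
  let γ : Edg (Fin e) (Fin m) → ZMod p := fun k => (ll k : ZMod p) / 2
  have hγ : ∀ k, γ k ≠ 0 := by
    intro k
    exact div_ne_zero (hcast _ (hll k).1 (hll k).2) h2
  have hγ2 : ∀ k, 2 * γ k = (ll k : ZMod p) := by
    intro k
    simp only [γ]
    field_simp
  obtain ⟨cf, hW0, hW1⟩ := tiling hp2 hc (lo none : ZMod p) γ hγ
  refine ⟨FF hodd hW0 hW1, FF_matching hodd hc hW0 hW1, ?_⟩
  have hlen : ∀ k, edgeLength p (ed (W0 γ cf) (W1 (lo none : ZMod p) γ cf) k) = l k := by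
    rintro (o | j | j)
    · change len p (vert false (W0 γ cf (.inl o))) (vert true (W1 (lo none : ZMod p) γ cf (.inl o))) = lo o
      have h3 := hlo1 o
      apply len_vert hodd _ _ _ _ _ h3.1.1 h3.1.2
      · rw [h3.2]; rfl
      · rcases o with _ | i
        · right
          simp [W0, W1]
        · have h4 := hγ2 (.inl i)
          change 2 * γ (.inl i) = (lo (some i) : ZMod p) at h4
          rw [← h4]
          simp only [W0, W1]
          rcases sg_cases (p := p) (cf (.inl i)).2 with h5 | h5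
          · right; rw [h5]; ring
          · left; rw [h5]; ring
    · change len p (vert false (W0 γ cf (.inr (j, false)))) (vert false (W0 γ cf (.inr (j, true)))) = le (.inl j)
      have h3 := hle1 (.inl j)
      apply len_vert hodd _ _ _ _ _ h3.1.1 h3.1.2
      · rw [h3.2]; rfl
      · have h4 := hγ2 (.inr (.inl j))
        change 2 * γ (.inr (.inl j)) = (le (.inl j) : ZMod p) at h4
        rw [← h4]
        simp only [W0]
        rcases sg_cases (p := p) (cf (.inr (.inl j))).2 with h5 | h5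
        · right; rw [h5]; ring
        · left; rw [h5]; ring
    · change len p (vert true (W1 (lo none : ZMod p) γ cf (.inr (j, false))))
        (vert true (W1 (lo none : ZMod p) γ cf (.inr (j, true)))) = le (.inr j)
      have h3 := hle1 (.inr j)
      apply len_vert hodd _ _ _ _ _ h3.1.1 h3.1.2
      · rw [h3.2]; rfl
      · have h4 := hγ2 (.inr (.inr j))
        change 2 * γ (.inr (.inr j)) = (le (.inr j) : ZMod p) at h4
        rw [← h4]
        simp only [W1]
        rcases sg_cases (p := p) (cf (.inr (.inr j))).2 with h5 | h5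
        · right; rw [h5]; ring
        · left; rw [h5]; ring
  rw [FF_lengths hodd hW0 hW1 l hlen]
  have h6 : (Finset.univ : Finset (EdgS (Fin e) (Fin m))).val =
      (Finset.univ : Finset (Option (Fin e))).val.map Sum.inl +
        (Finset.univ : Finset (Fin m ⊕ Fin m)).val.map Sum.inr := rfl
  rw [h6, Multiset.map_add, Multiset.map_map, Multiset.map_map]
  have h7 : (l ∘ Sum.inl) = lo := rfl
  have h8 : (l ∘ Sum.inr) = le := rfl
  rw [h7, h8, hlo, hle, add_comm, hsplit]

end Pool.Agent.Helper901PM
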